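import Mathlib
import Pool.Agent.V11217.SDR

/-!
# The additivity of `Split(Ω,Λ)` is at most the cofinality of the ultrafilter number

For sets of reals, `add(Split(Ω,Λ)) ≤ cf(𝔲) ≤ 𝔲 ≤ 𝔠`.
-/

namespace Pool.Agent.Results.MP_312f56_gt.AddLeCofU

open Set Filter Topology Cardinal

/-- `U` is an open cover of the set of reals `X` (a family of relatively open subsets of `X`,
with union `X`, not containing `X` itself). -/
def IsOpenCover (X : Set ℝ) (U : Set (Set X)) : Prop :=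
  (∀ V ∈ U, IsOpen V) ∧ ⋃₀ U = Set.univ ∧ Set.univ ∉ U

/-- `U ∈ Λ(X)`: open large cover of `X`. -/
def IsLarge (X : Set ℝ) (U : Set (Set X)) : Prop :=
  IsOpenCover X U ∧ ∀ x : X, {V | V ∈ U ∧ x ∈ V}.Infinite

/-- `U ∈ Ω(X)`: open `ω`-cover of `X`. -/
def IsOmega (X : Set ℝ) (U : Set (Set X)) : Prop :=
  IsOpenCover X U ∧ ∀ F : Set X, F.Finite → ∃ V ∈ U, F ⊆ V

/-- `X` satisfies `Split(Ω,Λ)`. -/
def SplitOL (X : Set ℝ) : Prop :=
  ∀ U : Set (Set X), IsOmega X U → ∃ V W : Set (Set X), V ∪ W = U ∧ Disjoint V W ∧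
    (∃ V' ⊆ V, IsLarge X V') ∧ (∃ W' ⊆ W, IsLarge X W')

/-- The additivity number of the family of sets of reals satisfying `Split(Ω,Λ)`. -/
noncomputable def addSplit : Cardinal.{0} :=
  sInf {κ | ∃ F : Set (Set ℝ), #F = κ ∧ (∀ X ∈ F, SplitOL X) ∧ ¬ SplitOL (⋃₀ F)}

/-- `B` is a base of the ultrafilter `p`. -/
def IsBase (p : Ultrafilter ℕ) (B : Set (Set ℕ)) : Prop :=
  (∀ b ∈ B, b ∈ p) ∧ ∀ A ∈ p, ∃ b ∈ B, b ⊆ A

/-- The ultrafilter `p` is nonprincipal. -/
def Nonprincipal (p : Ultrafilter ℕ) : Prop := ∀ n : ℕ, {n} ∉ p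

/-- The ultrafilter number `𝔲`: the least cardinality of a base of a nonprincipal ultrafilter on
the natural numbers. -/
noncomputable def uNumber : Cardinal.{0} :=
  sInf {κ | ∃ (p : Ultrafilter ℕ) (B : Set (Set ℕ)), Nonprincipal p ∧ IsBase p B ∧ #B = κ}

theorem nonprincipal_cofinite {p : Ultrafilter ℕ} (hp : Nonprincipal p) {A : Set ℕ}
    (hA : A.Finite) : Aᶜ ∈ p := by
  rw [Ultrafilter.compl_mem_iff_notMem]
  intro h
  have := (Ultrafilter.finite_biUnion_mem_iff (f := p) hA (s := fun n => ({n} : Set ℕ))).1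
    (by simpa using h)
  obtain ⟨n, -, hn⟩ := this
  exact hp n hn

theorem mem_infinite {p : Ultrafilter ℕ} (hp : Nonprincipal p) {A : Set ℕ}
    (hA : A ∈ p) : A.Infinite := by
  intro hfin
  exact (Ultrafilter.compl_mem_iff_notMem.1 (nonprincipal_cofinite hp hfin)) hA

theorem exists_nonprincipal : ∃ p : Ultrafilter ℕ, Nonprincipal p := by
  refine ⟨hyperfilter ℕ, fun n hn => ?_⟩
  exact Set.Finite.notMem_hyperfilter (Set.finite_singleton n) hn

theorem uSet_nonempty :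
    {κ | ∃ (p : Ultrafilter ℕ) (B : Set (Set ℕ)), Nonprincipal p ∧ IsBase p B ∧ #B = κ}.Nonempty := by
  obtain ⟨p, hp⟩ := exists_nonprincipal
  exact ⟨_, p, {A | A ∈ p}, hp, ⟨fun b hb => hb, fun A hA => ⟨A, hA, subset_rfl⟩⟩, rfl⟩

theorem uNumber_attained :
    ∃ (p : Ultrafilter ℕ) (B : Set (Set ℕ)), Nonprincipal p ∧ IsBase p B ∧ #B = uNumber :=
  csInf_mem uSet_nonempty

theorem uNumber_le {p : Ultrafilter ℕ} {B : Set (Set ℕ)} (hp : Nonprincipal p)
    (hB : IsBase p B) : uNumber ≤ #B :=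
  csInf_le' ⟨p, B, hp, hB, rfl⟩

theorem uNumber_le_continuum : uNumber ≤ 𝔠 := by
  obtain ⟨p, hp⟩ := exists_nonprincipal
  have h : IsBase p {A | A ∈ p} := ⟨fun b hb => hb, fun A hA => ⟨A, hA, subset_rfl⟩⟩
  refine (uNumber_le hp h).trans ((Cardinal.mk_set_le _).trans ?_)
  simp

/-- A countable family of infinite subsets of `ℕ` is not reaping. -/
theorem exists_split_countable {B : Set (Set ℕ)} (hB : #B ≤ ℵ₀) (hinf : ∀ b ∈ B, b.Infinite) :
    ∃ A : Set ℕ, ∀ b ∈ B, (b ∩ A).Nonempty ∧ (b \ A).Nonempty := by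
  classical
  rcases B.eq_empty_or_nonempty with rfl | hne
  · exact ⟨∅, by simp⟩
  have : Nonempty B := hne.to_subtype
  have hJ : #(B × Bool) ≤ #ℕ := by
    simp only [mk_prod, lift_id, mk_bool, mk_nat]
    calc #B * 2 ≤ ℵ₀ * ℵ₀ := mul_le_mul' hB (by exact_mod_cast (Cardinal.nat_lt_aleph0 2).le)
      _ = ℵ₀ := by simp
  obtain ⟨f, hf, hfS⟩ := Pool.Agent.V11217.exists_sdr hJ (fun j : B × Bool => (j.1 : Set ℕ))
    (fun j => by
      have := (hinf j.1 j.1.2).to_subtype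
      rw [mk_nat]
      exact Cardinal.aleph0_le_mk _)
  refine ⟨{n | ∃ b : B, f (b, true) = n}, fun b hb => ⟨⟨f (⟨b, hb⟩, true), hfS (⟨b, hb⟩, true), ⟨b, hb⟩, rfl⟩,
    ⟨f (⟨b, hb⟩, false), hfS (⟨b, hb⟩, false), ?_⟩⟩⟩
  rintro ⟨c, hc⟩
  have := hf hc
  simp at this

theorem aleph0_lt_uNumber : ℵ₀ < uNumber := by
  obtain ⟨p, B, hp, hB, hBc⟩ := uNumber_attained
  rw [← hBc]
  by_contra hcon
  push Not at hcon
  obtain ⟨A, hA⟩ := exists_split_countable hcon (fun b hb => mem_infinite hp (hB.1 b hb))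
  rcases Ultrafilter.mem_or_compl_mem p A with h | h
  · obtain ⟨b, hb, hbA⟩ := hB.2 A h
    obtain ⟨x, hx⟩ := (hA b hb).2
    exact hx.2 (hbA hx.1)
  · obtain ⟨b, hb, hbA⟩ := hB.2 _ h
    obtain ⟨x, hx⟩ := (hA b hb).1
    exact hbA hx.1 hx.2

/-- A centered family of fewer than `𝔲` sets (all finite intersections infinite) is split by
some set. -/
theorem exists_split {ι : Type} (hι : #ι < uNumber) (a : ι → Set ℕ)
    (ha : ∀ F : Finset ι, (⋂ i ∈ F, a i).Infinite) :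
    ∃ A : Set ℕ, ∀ i, (a i ∩ A).Infinite ∧ (a i \ A).Infinite := by
  classical
  let g : Finset ι × ℕ → Set ℕ := fun q => (⋂ i ∈ q.1, a i) ∩ Ici q.2
  have hginf : ∀ q, (g q).Infinite := by
    intro q
    have h1 := (ha q.1).diff (Set.finite_Iio q.2)
    refine h1.mono ?_
    rintro x ⟨hx1, hx2⟩
    exact ⟨hx1, by simpa using hx2⟩
  let B : Set (Set ℕ) := range g
  have hBc : #B < uNumber := by
    refine lt_of_le_of_lt Cardinal.mk_range_le ?_
    rw [mk_prod, lift_id, lift_id, mk_nat]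
    have h1 : #(Finset ι) ≤ max ℵ₀ #ι := by
      rcases finite_or_infinite ι with hfin | hinf
      · haveI := Fintype.ofFinite ι
        exact le_max_of_le_left (Cardinal.mk_le_aleph0)
      · rw [Cardinal.mk_finset_of_infinite]
        exact le_max_right _ _
    have h2 : #(Finset ι) * ℵ₀ ≤ max ℵ₀ #ι := by
      calc #(Finset ι) * ℵ₀ ≤ max ℵ₀ #ι * max ℵ₀ #ι := mul_le_mul' h1 (le_max_left _ _)
        _ = max ℵ₀ #ι := Cardinal.mul_eq_self (le_max_left _ _)
    exact lt_of_le_of_lt h2 (max_lt aleph0_lt_uNumber hι)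
  -- some `A` is not decided by `B`
  obtain ⟨A, hA⟩ : ∃ A : Set ℕ, ∀ q, ¬ g q ⊆ A ∧ ¬ g q ⊆ Aᶜ := by
    by_contra hcon
    push Not at hcon
    have hdir : ∀ q r, ∃ s, g s ⊆ g q ∩ g r := by
      intro q r
      refine ⟨(q.1 ∪ r.1, max q.2 r.2), ?_⟩
      rintro x ⟨hx1, hx2⟩
      simp only [Finset.mem_union, mem_iInter] at hx1
      simp only [mem_Ici, sup_le_iff] at hx2
      refine ⟨⟨?_, hx2.1⟩, ⟨?_, hx2.2⟩⟩
      · simp only [mem_iInter]; exact fun i hi => hx1 i (Or.inl hi)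
      · simp only [mem_iInter]; exact fun i hi => hx1 i (Or.inr hi)
    let fl : Filter ℕ :=
      { sets := {A | ∃ q, g q ⊆ A}
        univ_sets := ⟨(∅, 0), subset_univ _⟩
        sets_of_superset := by
          rintro x y ⟨q, hq⟩ hxy
          exact ⟨q, hq.trans hxy⟩
        inter_sets := by
          rintro x y ⟨q, hq⟩ ⟨r, hr⟩
          obtain ⟨s, hs⟩ := hdir q r
          exact ⟨s, hs.trans (inter_subset_inter hq hr)⟩ }
    have hmem : ∀ A, A ∈ fl ↔ ∃ q, g q ⊆ A := fun A => Iff.rfl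
    let p : Ultrafilter ℕ := Ultrafilter.ofComplNotMemIff fl (by
      intro s
      constructor
      · intro h
        rw [hmem] at h ⊢
        push Not at h
        by_contra hs
        push Not at hs
        obtain ⟨q, hq⟩ := hcon s
        by_cases hqs : g q ⊆ s
        · exact hs q hqs
        · exact h q (hq hqs)
      · rintro ⟨q, hq⟩ ⟨r, hr⟩
        obtain ⟨t, ht⟩ := hdir q r
        obtain ⟨x, hx⟩ := (hginf t).nonempty
        exact hr (ht hx).2 (hq (ht hx).1))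
    have hpm : ∀ A, A ∈ p ↔ ∃ q, g q ⊆ A := fun A => Iff.rfl
    have hp : Nonprincipal p := by
      intro n hn
      obtain ⟨q, hq⟩ := (hpm _).1 hn
      exact (hginf q) ((finite_singleton n).subset hq)
    have hB : IsBase p B := by
      refine ⟨?_, ?_⟩
      · rintro _ ⟨q, rfl⟩
        exact (hpm _).2 ⟨q, subset_rfl⟩
      · intro A hA
        obtain ⟨q, hq⟩ := (hpm _).1 hA
        exact ⟨g q, ⟨q, rfl⟩, hq⟩
    exact absurd (uNumber_le hp hB) (not_le.2 hBc)
  refine ⟨A, fun i => ⟨?_, ?_⟩⟩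
  · intro hfin
    obtain ⟨m, hm⟩ := hfin.bddAbove
    refine (hA ({i}, m + 1)).2 ?_
    rintro x ⟨hx1, hx2⟩ hxA
    simp only [Finset.mem_singleton, iInter_iInter_eq_left] at hx1
    have := hm ⟨hx1, hxA⟩
    simp only [mem_Ici] at hx2
    omega
  · intro hfin
    obtain ⟨m, hm⟩ := hfin.bddAbove
    refine (hA ({i}, m + 1)).1 ?_
    rintro x ⟨hx1, hx2⟩
    by_contra hxA
    simp only [Finset.mem_singleton, iInter_iInter_eq_left] at hx1
    have := hm ⟨hx1, hxA⟩
    simp only [mem_Ici] at hx2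
    omega

/-- Every `ω`-cover of a set of reals contains a countable `ω`-cover. -/
theorem exists_countable_omega {X : Set ℝ} {U : Set (Set X)} (hU : IsOmega X U) :
    ∃ C ⊆ U, C.Countable ∧ ∀ F : Set X, F.Finite → ∃ V ∈ C, F ⊆ V := by
  classical
  have key : ∀ n : ℕ, ∃ C ⊆ U, C.Countable ∧ ∀ f : Fin n → X, ∃ V ∈ C, ∀ i, f i ∈ V := by
    intro n
    let s : U → Set (Fin n → X) := fun V => {f | ∀ i, f i ∈ (V : Set X)}
    have hs : ∀ V, IsOpen (s V) := by
      intro V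
      have : s V = Set.pi Set.univ (fun _ => (V : Set X)) := by ext f; simp [s]
      rw [this]
      exact isOpen_set_pi finite_univ (fun _ _ => hU.1.1 V V.2)
    obtain ⟨T, hTc, hT⟩ := TopologicalSpace.isOpen_iUnion_countable s hs
    refine ⟨Subtype.val '' T, by rintro _ ⟨V, -, rfl⟩; exact V.2, hTc.image _, fun f => ?_⟩
    obtain ⟨V, hV, hfV⟩ := hU.2 (range f) (finite_range f)
    have h1 : f ∈ ⋃ i, s i := mem_iUnion.2 ⟨⟨V, hV⟩, fun i => hfV ⟨i, rfl⟩⟩
    rw [← hT] at h1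
    obtain ⟨W, hWT, hW⟩ := mem_iUnion₂.1 h1
    exact ⟨W, ⟨W, hWT, rfl⟩, hW⟩
  choose C hCU hCc hC using key
  refine ⟨⋃ n, C n, iUnion_subset hCU, countable_iUnion hCc, fun F hF => ?_⟩
  obtain ⟨n, f, -, hf⟩ := hF.fin_param
  obtain ⟨V, hV, hfV⟩ := hC n f
  refine ⟨V, mem_iUnion.2 ⟨n, hV⟩, ?_⟩
  rw [← hf]
  rintro _ ⟨i, rfl⟩
  exact hfV i

/-- Every set of reals of size less than `𝔲` satisfies `Split(Ω,Λ)`. -/
theorem split_of_small {X : Set ℝ} (hX : #X < uNumber) : SplitOL X := by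
  classical
  intro U hU
  obtain ⟨C, hCU, hCc, hC⟩ := exists_countable_omega hU
  have huniv : Set.univ ∉ C := fun h => hU.1.2.2 (hCU h)
  -- every finite set is contained in infinitely many members of `C`
  have hmany : ∀ F : Set X, F.Finite → {V | V ∈ C ∧ F ⊆ V}.Infinite := by
    intro F hF hfin
    have hpt : ∀ V : Set X, V ∈ C → ∃ y, y ∉ V := by
      intro V hV
      by_contra hcon
      push Not at hcon
      exact huniv ((eq_univ_of_forall hcon) ▸ hV)
    have : Nonempty X := by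
      obtain ⟨V, hVC, -⟩ := hC ∅ finite_empty
      obtain ⟨y, -⟩ := hpt V hVC
      exact ⟨y⟩
    choose! y hy using hpt
    obtain ⟨V, hVC, hV⟩ := hC (F ∪ y '' {V | V ∈ C ∧ F ⊆ V}) (hF.union (hfin.image _))
    exact hy V hVC (hV (Or.inr ⟨V, ⟨hVC, (subset_union_left).trans hV⟩, rfl⟩))
  have hCinf : C.Infinite := (hmany ∅ finite_empty).mono (fun V hV => hV.1)
  have := hCinf.to_subtype
  have := hCc.to_subtype
  obtain ⟨e⟩ : Nonempty (ℕ ≃ C) := by
    have := (nonempty_denumerable C).some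
    exact ⟨(Denumerable.eqv C).symm⟩
  let a : X → Set ℕ := fun x => {n | x ∈ (e n : Set X)}
  have ha : ∀ F : Finset X, (⋂ x ∈ F, a x).Infinite := by
    intro F
    have h1 := hmany (F : Set X) F.finite_toSet
    have h2 : (e ⁻¹' {V : C | (F : Set X) ⊆ (V : Set X)}).Infinite := by
      apply Set.Infinite.preimage
      · intro hfin
        apply h1
        refine (hfin.image Subtype.val).subset ?_
        rintro V ⟨hV, hF⟩
        exact ⟨⟨V, hV⟩, hF, rfl⟩
      · intro V _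
        exact e.surjective V
    refine h2.mono ?_
    intro n hn
    simp only [mem_iInter]
    intro x hx
    exact hn hx
  obtain ⟨A, hA⟩ := exists_split hX a ha
  have hinj : Function.Injective (fun n => (e n : Set X)) :=
    Subtype.val_injective.comp e.injective
  have hlarge : ∀ D : Set ℕ, (∀ x, (a x ∩ D).Infinite) →
      IsLarge X ((fun n => (e n : Set X)) '' D) := by
    intro D hD
    refine ⟨⟨?_, ?_, ?_⟩, ?_⟩
    · rintro _ ⟨n, -, rfl⟩
      exact hU.1.1 _ (hCU (e n).2)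
    · refine eq_univ_of_forall fun x => ?_
      obtain ⟨n, hn1, hn2⟩ := (hD x).nonempty
      exact ⟨_, ⟨n, hn2, rfl⟩, hn1⟩
    · rintro ⟨n, -, hn⟩
      exact huniv (hn ▸ (e n).2)
    · intro x
      refine ((hD x).image hinj.injOn).mono ?_
      rintro _ ⟨n, ⟨hn1, hn2⟩, rfl⟩
      exact ⟨⟨n, hn2, rfl⟩, hn1⟩
  refine ⟨(fun n => (e n : Set X)) '' A, U \ ((fun n => (e n : Set X)) '' A), ?_,
    disjoint_sdiff_right, ⟨_, subset_rfl, hlarge A (fun x => (hA x).1)⟩,
    ⟨(fun n => (e n : Set X)) '' Aᶜ, ?_, hlarge Aᶜ (fun x => by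
      simpa [Set.diff_eq] using (hA x).2)⟩⟩
  · apply union_diff_cancel
    rintro _ ⟨n, -, rfl⟩
    exact hCU (e n).2
  · rintro _ ⟨n, hn, rfl⟩
    refine ⟨hCU (e n).2, ?_⟩
    rintro ⟨m, hm, hmn⟩
    exact hn (hinj hmn ▸ hm)

/-- A topological copy of the Cantor space in the reals. -/
theorem exists_cantor : ∃ f : (ℕ → Bool) → ℝ, Continuous f ∧ Function.Injective f := by
  have hperf : Perfect (Set.univ : Set ℝ) := by
    refine ⟨isClosed_univ, ?_⟩
    rw [preperfect_iff_nhds]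
    intro x _ U hU
    obtain ⟨ε, hε, hball⟩ := Metric.mem_nhds_iff.1 hU
    refine ⟨x + ε / 2, ⟨hball ?_, mem_univ _⟩, ?_⟩
    · rw [Metric.mem_ball, Real.dist_eq]
      rw [show x + ε / 2 - x = ε / 2 by ring, abs_of_pos (by linarith)]
      linarith
    · intro h; linarith
  obtain ⟨f, -, hf, hf'⟩ := hperf.exists_nat_bool_injection univ_nonempty
  exact ⟨f, hf, hf'⟩

open Classical in
/-- The characteristic function. -/
noncomputable def chi (A : Set ℕ) : ℕ → Bool := fun n => decide (n ∈ A)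

theorem chi_injective : Function.Injective chi := by
  intro A B h
  ext n
  have := congrFun h n
  simpa [chi] using this

/-- A base of a nonprincipal ultrafilter, copied into the reals, fails `Split(Ω,Λ)`. -/
theorem not_split_base {p : Ultrafilter ℕ} (hp : Nonprincipal p) {B : Set (Set ℕ)}
    (hB : IsBase p B) {f : (ℕ → Bool) → ℝ} (hf : Continuous f) (hf' : Function.Injective f) :
    ¬ SplitOL ((fun A => f (chi A)) '' B) := by
  classical
  intro hsplit
  set X : Set ℝ := (fun A => f (chi A)) '' B with hXdef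
  let U : ℕ → Set X := fun n => {x | (x : ℝ) ∉ f '' {g | g n = false}}
  have hUopen : ∀ n, IsOpen (U n) := by
    intro n
    have h1 : IsCompact (f '' {g : ℕ → Bool | g n = false}) := by
      apply IsCompact.image _ hf
      apply IsClosed.isCompact
      exact isClosed_eq (continuous_apply n) continuous_const
    exact h1.isClosed.isOpen_compl.preimage continuous_subtype_val
  have hmemU : ∀ (n : ℕ) (A : Set ℕ) (hA : A ∈ B), (⟨f (chi A), A, hA, rfl⟩ : X) ∈ U n ↔ n ∈ A := by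
    intro n A hA
    simp only [U, mem_setOf_eq, mem_image, not_exists, not_and]
    constructor
    · intro h
      by_contra hn
      exact h (chi A) (by simp [chi, hn]) rfl
    · rintro hn g hg hgA
      rw [hf' hgA] at hg
      simp [chi, hn] at hg
  have hcover : IsOmega X (range U) := by
    refine ⟨⟨?_, ?_, ?_⟩, ?_⟩
    · rintro _ ⟨n, rfl⟩
      exact hUopen n
    · refine eq_univ_of_forall ?_
      rintro ⟨_, A, hA, rfl⟩
      obtain ⟨n, hn⟩ := (mem_infinite hp (hB.1 A hA)).nonempty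
      exact ⟨U n, ⟨n, rfl⟩, (hmemU n A hA).2 hn⟩
    · rintro ⟨n, hn⟩
      obtain ⟨b, hb, hbn⟩ := hB.2 _ (nonprincipal_cofinite hp (finite_singleton n))
      have h1 : (⟨f (chi b), b, hb, rfl⟩ : X) ∈ U n := hn ▸ mem_univ _
      exact hbn ((hmemU n b hb).1 h1) rfl
    · intro F hF
      have h1 : (⋂ x ∈ F, {n | x ∈ U n}) ∈ p := by
        change _ ∈ (p : Filter ℕ)
        rw [Filter.biInter_mem hF]
        rintro ⟨_, A, hA, rfl⟩ _
        refine Filter.mem_of_superset (hB.1 A hA) ?_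
        intro n hn
        exact (hmemU n A hA).2 hn
      obtain ⟨n, hn⟩ := (mem_infinite hp h1).nonempty
      refine ⟨U n, ⟨n, rfl⟩, fun x hx => ?_⟩
      exact mem_iInter₂.1 hn x hx
  obtain ⟨V, W, hVW, hdisj, ⟨V', hV', hV'l⟩, ⟨W', hW', hW'l⟩⟩ := hsplit _ hcover
  have key : ∀ V W : Set (Set X), V ∪ W = range U → Disjoint V W →
      (∃ W' ⊆ W, IsLarge X W') → {n | U n ∈ V} ∈ p → False := by
    rintro V W hVW hdisj ⟨W', hW', hW'l⟩ hmem
    obtain ⟨b, hb, hbV⟩ := hB.2 _ hmem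
    obtain ⟨O, hO, hbO⟩ := (hW'l.2 ⟨f (chi b), b, hb, rfl⟩).nonempty
    have hOW : O ∈ W := hW' hO
    obtain ⟨n, rfl⟩ : O ∈ range U := hVW ▸ Or.inr hOW
    exact hdisj.le_bot ⟨hbV ((hmemU n b hb).1 hbO), hOW⟩
  rcases Ultrafilter.mem_or_compl_mem p {n | U n ∈ V} with h | h
  · exact key V W hVW hdisj ⟨W', hW', hW'l⟩ h
  · refine key W V (by rw [union_comm]; exact hVW) hdisj.symm ⟨V', hV', hV'l⟩
      (Filter.mem_of_superset h ?_)
    intro n hn
    have h1 : U n ∈ V ∪ W := hVW ▸ ⟨n, rfl⟩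
    rcases h1 with h1 | h1
    · exact absurd h1 hn
    · exact h1

/-- There are at most `cf(𝔲)` sets of reals, each of size less than `𝔲` and each satisfying
`Split(Ω,Λ)`, whose union does not; hence `add(Split(Ω,Λ)) ≤ cf(𝔲) ≤ 𝔲 ≤ 𝔠`. -/
theorem result :
    (∃ F : Set (Set ℝ), #F ≤ uNumber.ord.cof ∧ (∀ X ∈ F, SplitOL X) ∧ ¬ SplitOL (⋃₀ F)) ∧
    addSplit ≤ uNumber.ord.cof ∧ uNumber.ord.cof ≤ uNumber ∧ uNumber ≤ 𝔠 := by
  classical
  have main : ∃ F : Set (Set ℝ), #F ≤ uNumber.ord.cof ∧ (∀ X ∈ F, SplitOL X) ∧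
      ¬ SplitOL (⋃₀ F) := by
    obtain ⟨p, B, hp, hB, hBc⟩ := uNumber_attained
    obtain ⟨f, hf, hf'⟩ := exists_cantor
    let T := uNumber.ord.ToType
    have hT : #T = uNumber := Cardinal.mk_ord_toType _
    obtain ⟨e⟩ : Nonempty (B ≃ T) := Cardinal.eq.1 (hBc.trans hT.symm)
    obtain ⟨s, hs, hsc⟩ := Order.exists_cof_eq (α := T)
    have hcof : Order.cof T = uNumber.ord.cof := Ordinal.cof_toType _
    let P : T → Set ℝ := fun t => (fun b : B => f (chi (b : Set ℕ))) '' {b | e b ≤ t}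
    refine ⟨P '' s, ?_, ?_, ?_⟩
    · rw [← hcof, ← hsc]
      exact Cardinal.mk_image_le
    · rintro _ ⟨t, -, rfl⟩
      apply split_of_small
      refine lt_of_le_of_lt Cardinal.mk_image_le ?_
      have h1 : #{b : B | e b ≤ t} = #(Set.Iic t) := by
        refine Cardinal.mk_congr (e.subtypeEquiv (fun b => Iff.rfl))
      rw [h1]
      have h2 : #(Set.Iic t) ≤ #(Set.Iio t) + 1 := by
        rw [← Set.Iio_insert (a := t)]
        exact Cardinal.mk_insert_le
      refine lt_of_le_of_lt h2 ?_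
      exact Cardinal.add_lt_of_lt aleph0_lt_uNumber.le (Cardinal.mk_Iio_toType_ord_lt t)
        (lt_trans Cardinal.one_lt_aleph0 aleph0_lt_uNumber)
    · have h1 : ⋃₀ (P '' s) = (fun A => f (chi A)) '' B := by
        ext x
        simp only [sUnion_image, mem_iUnion, exists_prop, mem_image]
        constructor
        · rintro ⟨t, -, b, -, rfl⟩
          exact ⟨b, b.2, rfl⟩
        · rintro ⟨A, hA, rfl⟩
          obtain ⟨t, hts, ht⟩ := hs (e ⟨A, hA⟩)
          refine ⟨t, hts, ?_⟩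
          exact (⟨(⟨A, hA⟩ : B), ht, rfl⟩ : f (chi A) ∈ P t)
      rw [h1]
      exact not_split_base hp hB hf hf'
  refine ⟨main, ?_, Ordinal.cof_ord_le _, uNumber_le_continuum⟩
  obtain ⟨F, hF, hF1, hF2⟩ := main
  have h1 : addSplit ≤ #F := csInf_le' ⟨F, rfl, hF1, hF2⟩
  exact h1.trans hF

end Pool.Agent.Results.MP_312f56_gt.AddLeCofU
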